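import Pool.Agent.H21.RW2

namespace Pool.Agent.Results.MP_a2c283_pr.Cliques

open scoped ENNReal Classical
open Pool.Agent.H21.RWDef Pool.Agent.H21.RW2

theorem hit_le (N : ℕ) (hN : 0 < N) (v x : W N (N * N)) (n : ℕ) :
    ∑ t ∈ Finset.range n, hitTail (G N (N * N)) v t x ≤ 5 * (N : ℝ) ^ 3 := by
  have h1 : (1 : ℝ) ≤ N := by exact_mod_cast hN
  have h2 : (N : ℝ) ≤ N ^ 2 := by nlinarith
  have h3 : (N : ℝ) ^ 2 ≤ N ^ 3 := by nlinarith
  have h4 : (N : ℝ) ^ 3 ≤ N ^ 4 := by nlinarith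
  rcases v with _ | a | a
  · refine (hitW N (N * N) n x).trans (tri_le _ _ _ _ _ ?_ ?_ ?_ ?_ x) <;> push_cast <;> nlinarith
  · refine (hitQ N (N * N) a (Nat.mul_pos hN hN) (4 * N ^ 3) (by push_cast; nlinarith)
      (by positivity) n x).trans (tri_le _ _ _ _ _ ?_ ?_ ?_ ?_ x) <;> push_cast <;> nlinarith
  · refine (hitB N (N * N) a hN (4 * N ^ 2) (by push_cast; nlinarith)
      (by positivity) n x).trans (tri_le _ _ _ _ _ ?_ ?_ ?_ ?_ x) <;> push_cast <;> nlinarith

theorem small (N : ℕ) (a : Fin N) (v : W N (N * N)) (t : ℕ) (ht : 8 * (N * N) ≤ t) :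
    hitTail (G N (N * N)) v t (some (Sum.inl a)) ≤ 3 / 4 := by
  have hN := a.pos
  have h1 : (1 : ℝ) ≤ N := by exact_mod_cast hN
  have h2 : (N : ℝ) ≤ N ^ 2 := by nlinarith
  rcases v with _ | b | b
  · have := (markov _ _ _ _ _ ht).trans (hitW N (N * N) _ (some (Sum.inl a)))
    simp only [tri, reduceCtorEq, if_false] at this
    push_cast at this
    by_contra h
    push Not at h
    nlinarith
  · have := (markov _ _ _ (2 * N) t (by nlinarith)).trans (halfQ N (N * N) b a _)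
    push_cast at this
    by_contra h
    push Not at h
    nlinarith
  · have := (markov _ _ _ _ _ ht).trans (hitB N (N * N) b hN (4 * N ^ 2) (by push_cast; nlinarith)
      (by positivity) _ (some (Sum.inl a)))
    simp only [tri, Option.some.injEq, reduceCtorEq, if_false] at this
    push_cast at this
    by_contra h
    push Not at h
    nlinarith

theorem card_le (N : ℕ) (hN : 0 < N) : (Fintype.card (W N (N * N)) : ℝ) ≤ 3 * N ^ 2 := by
  have h1 : (1 : ℝ) ≤ N := by exact_mod_cast hN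
  simp only [Fintype.card_option, Fintype.card_sum, Fintype.card_fin]
  push_cast
  nlinarith

theorem sum_le (N : ℕ) (hN : 0 < N) (x : W N (N * N)) (n : ℕ) :
    ∑ t ∈ Finset.range n, ∑ v, hitTail (G N (N * N)) v t x ≤ 15 * (N : ℝ) ^ 5 := by
  rw [Finset.sum_comm]
  calc _ ≤ ∑ v : W N (N * N), 5 * (N : ℝ) ^ 3 := Finset.sum_le_sum fun v _ => hit_le N hN v x n
    _ = Fintype.card (W N (N * N)) * (5 * (N : ℝ) ^ 3) := by simp
    _ ≤ 3 * N ^ 2 * (5 * (N : ℝ) ^ 3) := by have := card_le N hN; gcongr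
    _ = _ := by ring

theorem cover_le (N k : ℕ) (a : Fin N) (hk : (3 / 4 : ℝ) ^ k * N ^ 3 ≤ 1) :
    cover (G N (N * N)) (fun _ : Fin (k + 1) => some (Sum.inl a)) ≤
      ENNReal.ofReal (23 * (N : ℝ) ^ 2) := by
  have hN := a.pos
  refine tsum_le _ (fun t => coverTail_nonneg _ _ t) _ fun n => ?_
  have h1 : ∀ t, coverTail (G N (N * N)) (fun _ : Fin (k + 1) => some (Sum.inl a)) t ≤
      (if t < 8 * (N * N) then 1 else 0) +
        (3 / 4 : ℝ) ^ k * ∑ v, hitTail (G N (N * N)) v t (some (Sum.inl a)) := by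
    intro t
    split_ifs with h
    · refine (coverTail_le_one _ _ t).trans (le_add_of_nonneg_right ?_)
      exact mul_nonneg (by positivity) (Finset.sum_nonneg fun v _ => S_nonneg _ _ _ _)
    · rw [zero_add, Finset.mul_sum]
      refine (union_bound _ _ t).trans (Finset.sum_le_sum fun v _ => ?_)
      rw [Finset.prod_const, Finset.card_univ, Fintype.card_fin, pow_succ]
      exact mul_le_mul_of_nonneg_right
        (pow_le_pow_left₀ (S_nonneg _ _ _ _) (small N a v t (not_lt.1 h)) k) (S_nonneg _ _ _ _)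
  refine (Finset.sum_le_sum fun t _ => h1 t).trans ?_
  rw [Finset.sum_add_distrib, ← Finset.mul_sum, ← Finset.sum_filter, Finset.sum_const,
    nsmul_eq_mul, mul_one]
  have h2 : (((Finset.range n).filter fun t => t < 8 * (N * N)).card : ℝ) ≤ 8 * N ^ 2 := by
    have : ((Finset.range n).filter fun t => t < 8 * (N * N)).card ≤ 8 * (N * N) := by
      refine (Finset.card_le_card (t := Finset.range (8 * (N * N))) fun t ht => ?_).trans (by simp)
      exact Finset.mem_range.2 (Finset.mem_filter.1 ht).2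
    calc _ ≤ ((8 * (N * N) : ℕ) : ℝ) := by exact_mod_cast this
      _ = _ := by push_cast; ring
  have h3 := mul_le_mul_of_nonneg_left (sum_le N hN (some (Sum.inl a)) n)
    (show (0 : ℝ) ≤ (3 / 4) ^ k by positivity)
  have h4 := mul_le_mul_of_nonneg_left hk (show (0 : ℝ) ≤ 15 * N ^ 2 by positivity)
  nlinarith

theorem result (α c : ℝ) (hα : 0 < α) (hc : 0 < c) (K : ℕ) :
    ∃ (V : Type) (_ : Fintype V) (G : SimpleGraph V), G.Connected ∧
      coverMax G ≠ ∞ ∧ hmax G ≠ ∞ ∧ hmax G ≠ 0 ∧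
      (K : ℝ) ≤ (coverMax G).toReal / (hmax G).toReal ∧
      ∃ (k : ℕ) (u : V), 1 ≤ k ∧ K ≤ k ∧
        (k : ℝ) ≤ Real.exp (α * ((coverMax G).toReal / (hmax G).toReal)) ∧
        ENNReal.ofReal c * k * cover G (fun _ : Fin k => u) < coverMax G := by
  obtain ⟨s, hs⟩ := exists_nat_gt (8000 / α ^ 2 + 920 * c + 20 * K + 1)
  have p1 : 0 < 8000 / α ^ 2 := by positivity
  have p2 : (0 : ℝ) ≤ K := Nat.cast_nonneg _
  have hs1 : (1 : ℝ) ≤ s := by linarith
  set N : ℕ := 2 ^ s with hNdef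
  have hN : 0 < N := by positivity
  have hN1 : (1 : ℝ) ≤ N := by exact_mod_cast hN
  have hNs : (s : ℝ) < N := by exact_mod_cast Nat.lt_two_pow_self
  have hNr : (N : ℝ) = 2 ^ s := by rw [hNdef]; push_cast; rfl
  have hH : (s : ℝ) / 2 ≤ Hn N := by
    have h1 := log_add_one_le_harmonic N
    have h2 : Real.log N ≤ Real.log ((N + 1 : ℕ) : ℝ) :=
      Real.log_le_log (by positivity) (by push_cast; linarith)
    rw [hNr, Real.log_pow] at h2
    have h3 := Real.log_two_gt_d9
    unfold Hn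
    nlinarith
  have hC := cover_lower N (N * N) hN ((N : ℝ) ^ 3 / 2) (by positivity) (by
    push_cast
    have : (N : ℝ) ^ 3 ≤ N ^ 4 := by nlinarith [pow_pos (show (0 : ℝ) < N by positivity) 3]
    nlinarith)
  have hC' : ENNReal.ofReal ((N : ℝ) ^ 3 * s / 4) ≤ coverMax (G N (N * N)) := by
    refine le_trans (ENNReal.ofReal_le_ofReal ?_) hC
    have := mul_le_mul_of_nonneg_left hH (show (0 : ℝ) ≤ N ^ 3 / 2 by positivity)
    linarith
  have hCf : coverMax (G N (N * N)) ≠ ∞ := by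
    refine ne_top_of_le_ne_top (ENNReal.ofReal_ne_top (r := 15 * (N : ℝ) ^ 5)) (iSup_le fun x => ?_)
    refine tsum_le _ (fun t => coverTail_nonneg _ _ t) _ fun n => ?_
    refine le_trans (Finset.sum_le_sum fun t _ => ?_) (sum_le N hN x n)
    simpa using union_bound (G N (N * N)) (fun _ : Fin 1 => x) t
  have hh : hmax (G N (N * N)) ≤ ENNReal.ofReal (5 * (N : ℝ) ^ 3) :=
    iSup_le fun x => iSup_le fun v =>
      tsum_le _ (fun t => S_nonneg _ _ t _) _ fun n => hit_le N hN v x n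
  have hhf : hmax (G N (N * N)) ≠ ∞ := ne_top_of_le_ne_top ENNReal.ofReal_ne_top hh
  have hh0 : hmax (G N (N * N)) ≠ 0 := by
    have h1 : hit (G N (N * N)) (some (Sum.inl ⟨0, hN⟩)) none ≤ hmax (G N (N * N)) :=
      le_iSup₂ (f := fun u v => hit (G N (N * N)) u v) _ _
    have h2 := ENNReal.le_tsum (f := fun t =>
      ENNReal.ofReal (hitTail (G N (N * N)) none t (some (Sum.inl ⟨0, hN⟩)))) 0
    rw [S_zero, if_neg (by simp), ENNReal.ofReal_one] at h2
    exact (zero_lt_one.trans_le (h2.trans h1)).ne'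
  have hr : (s : ℝ) / 20 ≤ (coverMax (G N (N * N))).toReal / (hmax (G N (N * N))).toReal := by
    have h1 := ENNReal.toReal_pos hh0 hhf
    have h2 := ENNReal.toReal_le_of_le_ofReal (by positivity) hh
    have h3 := (ENNReal.ofReal_le_iff_le_toReal hCf).1 hC'
    rw [le_div_iff₀ h1]
    nlinarith
  refine ⟨W N (N * N), inferInstance, G N (N * N), conn _ _, hCf, hhf, hh0, by linarith,
    9 * s + 1, some (Sum.inl ⟨0, hN⟩), by omega, ?_, ?_, ?_⟩
  · have : (K : ℝ) ≤ ((9 * s + 1 : ℕ) : ℝ) := by push_cast; linarith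
    exact_mod_cast this
  · refine le_trans ?_ (Real.exp_le_exp.2 (mul_le_mul_of_nonneg_left hr hα.le))
    refine le_trans ?_ (Real.quadratic_le_exp_of_nonneg (by positivity))
    have h1 : 8000 < s * α ^ 2 := by
      rw [← div_lt_iff₀ (by positivity)]; linarith
    have h2 : 0 ≤ α * (s / 20) := by positivity
    push_cast
    nlinarith
  · have hk : (3 / 4 : ℝ) ^ (9 * s) * N ^ 3 ≤ 1 := by
      rw [hNr, ← pow_mul, pow_mul, mul_comm s 3, pow_mul, ← mul_pow]
      exact pow_le_one₀ (by positivity) (by norm_num)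
    refine lt_of_le_of_lt (mul_le_mul_right (cover_le N (9 * s) ⟨0, hN⟩ hk) _) (lt_of_lt_of_le ?_ hC')
    rw [← ENNReal.ofReal_natCast, ← ENNReal.ofReal_mul hc.le, ← ENNReal.ofReal_mul (by positivity),
      ENNReal.ofReal_lt_ofReal_iff (by positivity)]
    push_cast
    have h1 : 920 * c < N := by linarith
    have h2 : c * (9 * s + 1) * 92 < N * s := by nlinarith
    have h3 : (0 : ℝ) < N ^ 2 := by positivity
    nlinarith

end Pool.Agent.Results.MP_a2c283_pr.Cliques
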